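import Pool.Agent.U446.GO.Up3
import Pool.Agent.U446.GO.Lo2

/-!
# The number of labelled graded orders with `k ≥ 5` grade levels (MP_ac85ec_co, Q2)

`Pool.Agent.U446.GO.a k n` is the number of partial orders on `Fin n` (as relations) that are
graded with exactly `k` grade levels.  The conjecture of Q2 is true: for each fixed `k ≥ 5`,
`log₂ a_k(n) = n²/4 + (1 - (k - 5)/2) n + O(log n)`.
-/

set_option autoImplicit false

namespace Pool.Agent.Results.MP_ac85ec_co.FiveLevels

open Pool.Agent.U446.GO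

/-- For each fixed `k ≥ 5` one has `log₂ a_k(n) = n²/4 + (1 - (k - 5)/2) n + O(log n)`. -/
theorem result : ∀ k : ℕ, 5 ≤ k → ∃ (C : ℝ) (n0 : ℕ), ∀ n : ℕ, n0 ≤ n →
    |Real.logb 2 (a k n) - ((n : ℝ) ^ 2 / 4 + (1 - ((k : ℝ) - 5) / 2) * n)| ≤
      C * Real.log n := by
  intro k hk
  obtain ⟨K, n1, hK, h1⟩ := upper (k := k) (by omega)
  obtain ⟨n2, h2⟩ := lower hk
  have hl2 : 0 < Real.log 2 := Real.log_pos (by norm_num)
  have hlogb : ∀ x : ℝ, Real.logb 2 x = Real.log x / Real.log 2 := fun x => rfl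
  refine ⟨|Real.log K| / Real.log 2 / Real.log 2 + (k + 10) / Real.log 2 + 10,
    n1 + n2 + 3, fun n hn => ?_⟩
  have hn1 : (1 : ℝ) ≤ n := by exact_mod_cast (by omega : 1 ≤ n)
  have hn3 : (3 : ℝ) ≤ n := by exact_mod_cast (by omega : 3 ≤ n)
  have hu := h1 n (by omega)
  have hl := h2 n (by omega)
  set E : ℝ := (n : ℝ) ^ 2 / 4 + (7 - k) / 2 * n with hE
  have hEE : (n : ℝ) ^ 2 / 4 + (1 - ((k : ℝ) - 5) / 2) * n = E := by rw [hE]; ring
  rw [hEE]
  have hpos : 0 < (2 : ℝ) ^ E := Real.rpow_pos_of_pos (by norm_num) _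
  have ha : 0 < (a k n : ℝ) := by
    by_contra hc
    have : (a k n : ℝ) ≤ 0 := not_lt.1 hc
    have h3 : 128 * ((n : ℝ) + 1) * (a k n : ℝ) ≤ 0 :=
      mul_nonpos_of_nonneg_of_nonpos (by positivity) this
    linarith
  have hlog2n : Real.log 2 ≤ Real.log n := Real.log_le_log (by norm_num) (by linarith)
  have hlogn : 0 < Real.log n := lt_of_lt_of_le hl2 hlog2n
  -- upper bound
  have u1 : Real.log (a k n) ≤ Real.log K + (k + 1) * Real.log n + E * Real.log 2 := by
    have := Real.log_le_log ha hu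
    rw [Real.log_mul (by positivity) hpos.ne', Real.log_mul hK.ne' (by positivity),
      Real.log_pow, Real.log_rpow (by norm_num)] at this
    push_cast at this
    exact this
  have u2 : E * Real.log 2 ≤ Real.log 128 + Real.log (n + 1) + Real.log (a k n) := by
    have := Real.log_le_log hpos hl
    rw [Real.log_mul (by positivity) ha.ne', Real.log_mul (by norm_num) (by positivity),
      Real.log_rpow (by norm_num)] at this
    exact this
  have u3 : Real.log 128 = 7 * Real.log 2 := by
    rw [show (128 : ℝ) = 2 ^ 7 by norm_num, Real.log_pow]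
    norm_num
  have u4 : Real.log (n + 1) ≤ 2 * Real.log n := by
    rw [show (2 : ℝ) * Real.log n = Real.log ((n : ℝ) ^ 2) by rw [Real.log_pow]; norm_num]
    apply Real.log_le_log (by linarith)
    nlinarith
  have u5 : Real.log K ≤ |Real.log K| / Real.log 2 * Real.log n := by
    calc Real.log K ≤ |Real.log K| := le_abs_self _
      _ = |Real.log K| / Real.log 2 * Real.log 2 := by field_simp
      _ ≤ |Real.log K| / Real.log 2 * Real.log n := by gcongr
  have hC : (|Real.log K| / Real.log 2 / Real.log 2 + (k + 10) / Real.log 2 + 10) *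
      Real.log n * Real.log 2 =
      |Real.log K| / Real.log 2 * Real.log n + (k + 10) * Real.log n +
        10 * Real.log n * Real.log 2 := by
    field_simp
  have hk0 : (0 : ℝ) ≤ k := by positivity
  have hKn : 0 ≤ |Real.log K| / Real.log 2 * Real.log n := by positivity
  have hp := mul_pos hlogn hl2
  have hkl : 0 ≤ (k : ℝ) * Real.log n := by positivity
  rw [hlogb, abs_le]
  constructor
  · rw [neg_le_sub_iff_le_add, ← sub_le_iff_le_add, le_div_iff₀ hl2, sub_mul, hC]
    linarith
  · rw [sub_le_iff_le_add, div_le_iff₀ hl2, add_mul, hC]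
    linarith

end Pool.Agent.Results.MP_ac85ec_co.FiveLevels
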